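import Mathlib

/-!
# Packing colourings: definitions
-/

set_option autoImplicit false

namespace Pool.Agent.N370.CF

/-- A set `X` of vertices of `G` is an `s`-packing if any two different vertices of `X` have
distance more than `s` in `G` (the distance of vertices in different components is infinite). -/
def IsPacking {V : Type*} (G : SimpleGraph V) (s : ℕ) (X : Set V) : Prop :=
  ∀ u ∈ X, ∀ v ∈ X, u ≠ v → (s : ℕ∞) < G.edist u v

/-- `G` is `(S 0, ..., S (k - 1))`-packing colourable: the vertices can be coloured with
`0, ..., k - 1` such that the vertices with colour `i` form an `S i`-packing. -/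
def PackingColourable {V : Type*} (G : SimpleGraph V) {k : ℕ} (S : Fin k → ℕ) : Prop :=
  ∃ f : V → Fin k, ∀ i, IsPacking G (S i) {v | f v = i}

/-- `G` has no induced subgraph isomorphic to `K_{1,3}`. -/
def ClawFree {V : Type*} (G : SimpleGraph V) : Prop :=
  ¬ (completeBipartiteGraph (Fin 1) (Fin 3)).IsIndContained G

end Pool.Agent.N370.CF
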