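import Mathlib

/-!
# Two involutions without fixed points
-/

set_option autoImplicit false

namespace Pool.Agent.N370.CF

open Equiv.Perm

/-- Two fixed-point-free involutions admit a common two-colouring. -/
theorem invol_colour {α : Type*} (s t : α → α) (hs : ∀ x, s (s x) = x) (ht : ∀ x, t (t x) = x)
    (hs' : ∀ x, s x ≠ x) (ht' : ∀ x, t x ≠ x) :
    ∃ c : α → Bool, ∀ x, c (s x) ≠ c x ∧ c (t x) ≠ c x := by
  classical
  let σ : Equiv.Perm α := Function.Involutive.toPerm s hs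
  let τ : Equiv.Perm α := Function.Involutive.toPerm t ht
  have hσ : ∀ x, σ x = s x := fun x => rfl
  have hτ : ∀ x, τ x = t x := fun x => rfl
  let ρ : Equiv.Perm α := σ * τ
  have hρ : ∀ x, ρ x = s (t x) := fun x => rfl
  have hσσ : σ * σ = 1 := by
    ext x; simp [hσ, hs]
  have hττ : τ * τ = 1 := by
    ext x; simp [hτ, ht]
  have hσi : σ⁻¹ = σ := inv_eq_of_mul_eq_one_left hσσ
  have hτi : τ⁻¹ = τ := inv_eq_of_mul_eq_one_left hττ
  have hconj : σ * ρ * σ⁻¹ = ρ⁻¹ := by
    show σ * (σ * τ) * σ⁻¹ = (σ * τ)⁻¹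
    rw [← mul_assoc, hσσ, one_mul, mul_inv_rev, hτi]
  have hconjn : ∀ n : ℤ, σ * ρ ^ n * σ⁻¹ = ρ ^ (-n) := by
    intro n
    rw [← conj_zpow, hconj, inv_zpow, zpow_neg]
  have happ : ∀ (n : ℤ) (x : α), s ((ρ ^ n) x) = (ρ ^ (-n)) (s x) := by
    intro n x
    have h := hconjn n
    have h2 : σ * ρ ^ n = ρ ^ (-n) * σ := by
      rw [← h]; group
    have := congrArg (fun f : Equiv.Perm α => f x) h2
    simpa [hσ] using this
  have hnot : ∀ x, ¬ SameCycle ρ x (s x) := by
    rintro x ⟨n, hn⟩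
    rcases Int.even_or_odd' n with ⟨m, rfl | rfl⟩
    · apply hs' ((ρ ^ m) x)
      rw [happ, ← hn, ← Equiv.Perm.mul_apply, ← zpow_add]
      congr 2
      ring
    · apply ht' ((ρ ^ m) x)
      have h1 : s ((ρ ^ m) x) = s (t ((ρ ^ m) x)) := by
        rw [← hρ, happ, ← hn, ← Equiv.Perm.mul_apply, ← zpow_add, ← Equiv.Perm.mul_apply,
          ← zpow_one_add]
        congr 2
        ring
      have h2 := congrArg s h1
      rw [hs, hs] at h2
      exact h2.symm
  -- classes
  let Q := Quotient (SameCycle.setoid ρ)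
  let q : α → Q := fun x => Quotient.mk (SameCycle.setoid ρ) x
  have hq : ∀ x y, q x = q y ↔ SameCycle ρ x y := by
    intro x y
    exact Quotient.eq
  let lo : LinearOrder Q := linearOrderOfSTO WellOrderingRel
  have hne : ∀ x, q x ≠ q (s x) := fun x h => hnot x ((hq _ _).1 h)
  have ht1 : ∀ x, q (t x) = q (s x) := by
    intro x
    rw [hq]
    exact ⟨1, by rw [zpow_one, hρ, ht]⟩
  have ht2 : ∀ x, q (s (t x)) = q x := by
    intro x
    rw [hq]
    exact SameCycle.symm ⟨1, by rw [zpow_one, hρ]⟩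
  have hdec : ∀ a b : Q, a ≠ b → decide (lo.lt a b) ≠ decide (lo.lt b a) := by
    intro a b hab h
    rcases lt_or_gt_of_ne hab with h1 | h1
    · have h2 : ¬ b < a := lt_asymm h1
      simp only [decide_eq_decide] at h
      exact h2 (h.1 h1)
    · have h2 : ¬ a < b := lt_asymm h1
      simp only [decide_eq_decide] at h
      exact h2 (h.2 h1)
  refine ⟨fun x => decide (lo.lt (q x) (q (s x))), fun x => ⟨?_, ?_⟩⟩
  · show decide (lo.lt (q (s x)) (q (s (s x)))) ≠ decide (lo.lt (q x) (q (s x)))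
    rw [hs]
    exact hdec _ _ (hne x).symm
  · show decide (lo.lt (q (t x)) (q (s (t x)))) ≠ decide (lo.lt (q x) (q (s x)))
    rw [ht1, ht2]
    exact hdec _ _ (hne x).symm

end Pool.Agent.N370.CF
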