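import Pool.Agent.N370.CF.Sets
import Pool.Agent.N370.CF.Invol

/-!
# The remaining graph is bipartite
-/

set_option autoImplicit false

namespace Pool.Agent.N370.CF

variable {V : Type*} {G : SimpleGraph V}

variable (G) in
/-- the subgraph on `A` is bipartite -/
def Bip (A : Set V) : Prop := ∃ c : V → Bool, ∀ u ∈ A, ∀ v ∈ A, G.Adj u v → c u ≠ c v

/-- third neighbour -/
theorem third (hG : CC G) {a b c : V} (hab : G.Adj a b) (hac : G.Adj a c) (hbc : b ≠ c) :
    ∃ t, t ≠ b ∧ t ≠ c ∧ G.Adj a t ∧ ∀ w, G.Adj a w → w = b ∨ w = c ∨ w = t := by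
  obtain ⟨x, y, z, h1, h2, h3, h4, h5, h6, h7, h8⟩ := hG a
  have k1 := h8 b hab
  have k2 := h8 c hac
  rcases k1 with rfl | rfl | rfl <;> rcases k2 with rfl | rfl | rfl
  · exact absurd rfl hbc
  · exact ⟨z, h2.symm, h3.symm, h7, h8⟩
  · exact ⟨y, h1.symm, h3, h6, fun w hw => by rcases h8 w hw with h | h | h <;> simp [h]⟩
  · exact ⟨z, h3.symm, h2.symm, h7, fun w hw => by rcases h8 w hw with h | h | h <;> simp [h]⟩
  · exact absurd rfl hbc
  · exact ⟨x, h1, h2, h5, fun w hw => by rcases h8 w hw with h | h | h <;> simp [h]⟩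
  · exact ⟨y, h3, h1.symm, h6, fun w hw => by rcases h8 w hw with h | h | h <;> simp [h]⟩
  · exact ⟨x, h2, h1, h5, fun w hw => by rcases h8 w hw with h | h | h <;> simp [h]⟩
  · exact absurd rfl hbc

/-- In a minimal non-bipartite set each vertex has two neighbours. -/
theorem min_deg [Finite V] {A : Set V} (hA : Minimal (fun A => ¬ Bip G A) A) {v : V}
    (hv : v ∈ A) (p : V) : ∃ q ∈ A, G.Adj v q ∧ q ≠ p := by
  classical
  by_contra hcon
  push Not at hcon
  have hB : Bip G (A \ {v}) := by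
    by_contra hB
    have := hA.2 hB Set.sdiff_subset hv
    exact this.2 rfl
  obtain ⟨c, hc⟩ := hB
  apply hA.1
  refine ⟨Function.update c v (!(c p)), ?_⟩
  intro u hu w hw huw
  by_cases h1 : u = v
  · subst h1
    have h2 : w = p := hcon w hw huw
    subst h2
    rw [Function.update_self, Function.update_of_ne huw.ne.symm]
    cases c w <;> simp
  · by_cases h2 : w = v
    · subst h2
      have h3 : u = p := hcon u hu huw.symm
      subst h3
      rw [Function.update_self, Function.update_of_ne huw.ne]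
      cases c u <;> simp
    · rw [Function.update_of_ne h1, Function.update_of_ne h2]
      exact hc u ⟨hu, h1⟩ w ⟨hw, h2⟩ huw

theorem no_fat_aux [Finite V] (hG : CC G) {S X Y : Set V} (hg : Good G S X Y) {A : Set V}
    (hA : Minimal (fun A => ¬ Bip G A) A) (hD : ∀ v ∈ A, v ∉ X ∪ Y) {v : V} (hv : v ∈ A)
    (hf : fat G v) : v ∉ S ∧ ∀ p p', R G v p → mat G p p' → p' ∈ A := by
  obtain ⟨b, hbm, hvb, hbD⟩ := hg.fatb v hf
  have hbA : b ∉ A := fun h => hD b h hbD
  obtain ⟨c, a, d, hbc, hba, hbd, hca, hcd, had, abc, aba, abd, aca, acd, hNb, hNc, hR, hmc⟩ :=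
    fat_struct hG hbm
  -- ends
  have hend : ∀ a, G.Adj b a → G.Adj c a → a ∈ A → c ∈ A ∧ ∀ p', mat G a p' → p' ∈ A := by
    intro a h1 h2 haA
    obtain ⟨t, t1, t2, t3, t4⟩ := third hG h1.symm h2.symm hbc
    refine ⟨?_, ?_⟩
    · obtain ⟨q, hq, haq, hqt⟩ := min_deg hA haA t
      rcases t4 q haq with rfl | rfl | rfl
      · exact absurd hq hbA
      · exact hq
      · exact absurd rfl hqt
    · intro p' hp'
      have e : p' = t := by
        rcases t4 p' hp'.1 with rfl | rfl | h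
        · exact absurd (mat_symm hp') (hbm _)
        · exact absurd (mat_symm hp') (hmc _)
        · exact h
      obtain ⟨q, hq, haq, hqc⟩ := min_deg hA haA c
      rcases t4 q haq with rfl | rfl | rfl
      · exact absurd hq hbA
      · exact absurd rfl hqc
      · rw [e]; exact hq
  have hc : c ∈ A → a ∈ A ∧ d ∈ A := by
    intro hcA
    constructor
    · obtain ⟨q, hq, haq, hqd⟩ := min_deg hA hcA d
      rcases hNc q haq with rfl | rfl | rfl
      · exact absurd hq hbA
      · exact hq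
      · exact absurd rfl hqd
    · obtain ⟨q, hq, haq, hqa⟩ := min_deg hA hcA a
      rcases hNc q haq with rfl | rfl | rfl
      · exact absurd hq hbA
      · exact absurd rfl hqa
      · exact hq
  have hcA : c ∈ A := by
    rcases hR v hvb.symm with rfl | rfl | rfl | rfl
    · exact absurd hv hbA
    · exact hv
    · exact (hend _ aba aca hv).1
    · exact (hend _ abd acd hv).1
  have hport : ∀ p p', R G v p → mat G p p' → p' ∈ A := by
    intro p p' hp hpp
    rcases hR p (hvb.symm.trans hp) with rfl | rfl | rfl | rfl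
    · exact absurd hpp (hbm _)
    · exact absurd hpp (hmc _)
    · exact (hend _ aba aca (hc hcA).1).2 p' hpp
    · exact (hend _ abd acd (hc hcA).2).2 p' hpp
  refine ⟨fun hvS => ?_, hport⟩
  obtain ⟨b', c', hbc', h1, h2, h3, h4⟩ := hg.fatc v hvS hf
    (fun p p' hp hpp hX => hD p' (hport p p' hp hpp) (Or.inl hX))
  have hbA' : b' ∉ A := fun h => hD b' h h3
  have hcA' : c' ∉ A := fun h => hD c' h h4
  have e1 := hR b' (hvb.symm.trans h1)
  have e2 := hR c' (hvb.symm.trans h2)
  obtain ⟨haA, hdA⟩ := hc hcA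
  have f1 : b' = b := by
    rcases e1 with h | h | h | h
    · exact h
    · exact absurd (h ▸ hcA) hbA'
    · exact absurd (h ▸ haA) hbA'
    · exact absurd (h ▸ hdA) hbA'
  have f2 : c' = b := by
    rcases e2 with h | h | h | h
    · exact h
    · exact absurd (h ▸ hcA) hcA'
    · exact absurd (h ▸ haA) hcA'
    · exact absurd (h ▸ hdA) hcA'
  exact hbc' (f1.trans f2.symm)

theorem no_fat [Finite V] (hG : CC G) {S X Y : Set V} (hg : Good G S X Y) {A : Set V}
    (hA : Minimal (fun A => ¬ Bip G A) A) (hD : ∀ v ∈ A, v ∉ X ∪ Y) {v : V} (hv : v ∈ A) :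
    ¬ fat G v := by
  intro hf
  obtain ⟨h1, h2⟩ := no_fat_aux hG hg hA hD hv hf
  obtain ⟨u, w, k1, k2, k3, k4⟩ := hg.fatl v hf h1
  exact (no_fat_aux hG hg hA hD (h2 u w k1 k2) k4).1 k3

theorem bip_left [Finite V] (hG : CC G) {S X Y : Set V} (hg : Good G S X Y) :
    Bip G (X ∪ Y)ᶜ := by
  classical
  by_contra hcon
  let P : Set (Set V) := {A | A ⊆ (X ∪ Y)ᶜ ∧ ¬ Bip G A}
  obtain ⟨A, hAP⟩ := (Set.toFinite P).exists_minimal ⟨_, subset_rfl, hcon⟩
  have hA : Minimal (fun A => ¬ Bip G A) A := by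
    refine ⟨hAP.1.2, fun B hB hBA => ?_⟩
    exact hAP.2 ⟨hBA.trans hAP.1.1, hB⟩ hBA
  have hD : ∀ v ∈ A, v ∉ X ∪ Y := fun v hv => hAP.1.1 hv
  have key : ∀ v : A, ∃ y z : A, tri G v.1 y.1 ∧ mat G v.1 z.1 ∧
      ∀ w ∈ A, G.Adj v.1 w → w = y.1 ∨ w = z.1 := by
    rintro ⟨v, hv⟩
    have hf := no_fat hG hg hA hD hv
    obtain ⟨x, y, z, hxy, hvx, hvy, avx, avy, axy, hz, hN, hR⟩ := thin_struct hG hf
    obtain ⟨d, hd, hvd⟩ := hg.thin v hf
    have tx : tri G v x := ⟨avx, y, avy, axy⟩
    have ty : tri G v y := ⟨avy, x, avx, axy.symm⟩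
    have main : ∀ x y, (∀ w, G.Adj v w → w = x ∨ w = y ∨ w = z) → x ∉ A → tri G v y →
        ∃ y z : A, tri G v y.1 ∧ mat G v z.1 ∧ ∀ w ∈ A, G.Adj v w → w = y.1 ∨ w = z.1 := by
      intro x y hN hx hy
      have hyA : y ∈ A := by
        obtain ⟨q, hq, hvq, hqz⟩ := min_deg hA hv z
        rcases hN q hvq with rfl | rfl | rfl
        · exact absurd hq hx
        · exact hq
        · exact absurd rfl hqz
      have hzA : z ∈ A := by
        obtain ⟨q, hq, hvq, hqy⟩ := min_deg hA hv y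
        rcases hN q hvq with rfl | rfl | rfl
        · exact absurd hq hx
        · exact absurd rfl hqy
        · exact hq
      refine ⟨⟨y, hyA⟩, ⟨z, hzA⟩, hy, hz, fun w hw hvw => ?_⟩
      rcases hN w hvw with h | h | h
      · exact absurd (h ▸ hw) hx
      · exact Or.inl h
      · exact Or.inr h
    rcases (hR d).1 hvd with rfl | rfl | rfl
    · exact absurd hd (hD _ hv)
    · exact main d y hN (fun h => hD d h hd) ty
    · exact main d x (fun w hw => by rcases hN w hw with h | h | h <;> simp [h])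
        (fun h => hD d h hd) tx
  choose s t hs ht hst using key
  have us : ∀ v w : A, tri G v.1 w.1 → w = s v := by
    intro v w h
    rcases hst v w.1 w.2 h.1 with h1 | h1
    · exact Subtype.ext h1
    · exact absurd (ht v) (not_mat_of_tri (h1 ▸ h))
  have ut : ∀ v w : A, mat G v.1 w.1 → w = t v := by
    intro v w h
    exact Subtype.ext (mat_unique hG h (ht v))
  obtain ⟨c, hc⟩ := invol_colour s t (fun x => (us _ _ (tri_symm (hs x))).symm)
    (fun x => (ut _ _ (mat_symm (ht x))).symm)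
    (fun x h => tri_ne (hs x) (congrArg Subtype.val h).symm)
    (fun x h => mat_ne (ht x) (congrArg Subtype.val h).symm)
  apply hA.1
  refine ⟨fun v => if h : v ∈ A then c ⟨v, h⟩ else false, ?_⟩
  intro u hu w hw huw
  simp only [hu, hw, dif_pos]
  rcases hst ⟨u, hu⟩ w hw huw with h | h
  · have : (⟨w, hw⟩ : A) = s ⟨u, hu⟩ := Subtype.ext h
    rw [this]
    exact (hc _).1.symm
  · have : (⟨w, hw⟩ : A) = t ⟨u, hu⟩ := Subtype.ext h
    rw [this]
    exact (hc _).2.symm

end Pool.Agent.N370.CF
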