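import Pool.Agent.N370.CF.Left
import Pool.Agent.N370.CF.Defs

/-!
# The packings, and the colouring
-/

set_option autoImplicit false

namespace Pool.Agent.N370.CF

variable {V : Type*} {G : SimpleGraph V}

theorem walk_of_le {s : ℕ} {u v : V} (h : ¬ ((s : ℕ∞) < G.edist u v)) :
    ∃ p : G.Walk u v, p.length ≤ s := by
  have h1 : G.edist u v ≤ s := not_lt.1 h
  have hne : G.edist u v ≠ ⊤ := ne_top_of_le_ne_top (ENat.natCast_ne_top s) h1
  obtain ⟨p, hp⟩ := SimpleGraph.exists_walk_of_edist_ne_top hne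
  refine ⟨p, ?_⟩
  rw [← hp] at h1
  exact_mod_cast h1

theorem packing_mono {s : ℕ} {X Z : Set V} (h : IsPacking G s X) (hZ : Z ⊆ X) :
    IsPacking G s Z := fun u hu v hv => h u (hZ hu) v (hZ hv)

theorem packing_y (hG : CC G) {S X Y : Set V} (hg : Good G S X Y) : IsPacking G 3 Y := by
  intro u hu v hv huv
  by_contra hcon
  obtain ⟨p, hp⟩ := walk_of_le hcon
  have huS := hg.yS u hu
  have hvS := hg.yS v hv
  have hno : ∀ x y, x ∈ S → y ∈ S → ¬ mat G x y := fun x y hx hy h => hg.indep x y h hx hy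
  have hc : ∀ {x y}, tri G x y → x ∈ S → y ∈ S := fun {x y} h hx => hg.closed x y h hx
  have hc' : ∀ {x y}, tri G x y → y ∈ S → x ∈ S := fun {x y} h hx => hg.closed y x (tri_symm h) hx
  match p, hp with
  | .nil, _ => exact huv rfl
  | .cons h1 .nil, _ =>
    rcases tri_or_mat h1 with t1 | t1
    · exact huv (hg.yR u hu v hv (R.of_tri t1))
    · exact hno _ _ huS hvS t1
  | .cons (v := w) h1 (.cons h2 .nil), _ =>
    rcases tri_or_mat h1 with t1 | t1 <;> rcases tri_or_mat h2 with t2 | t2
    · exact huv (hg.yR u hu v hv ((R.of_tri t1).trans (R.of_tri t2)))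
    · exact hno _ _ (hc t1 huS) hvS t2
    · exact hno _ _ huS (hc' t2 hvS) t1
    · exact huv (mat_unique hG (mat_symm t1) t2)
  | .cons (v := w) h1 (.cons (v := w') h2 (.cons h3 .nil)), _ =>
    rcases tri_or_mat h1 with t1 | t1 <;> rcases tri_or_mat h2 with t2 | t2 <;>
      rcases tri_or_mat h3 with t3 | t3
    · exact huv (hg.yR u hu v hv (((R.of_tri t1).trans (R.of_tri t2)).trans (R.of_tri t3)))
    · exact hno _ _ (hc t2 (hc t1 huS)) hvS t3
    · exact hno _ _ (hc t1 huS) (hc' t3 hvS) t2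
    · have e : w = v := mat_unique hG (mat_symm t2) t3
      subst e
      exact huv (hg.yR u hu _ hv (R.of_tri t1))
    · exact hno _ _ huS (hc' t2 (hc' t3 hvS)) t1
    · exact huv (hg.y3 u hu v hv w w' t1 (mat_symm t3) t2)
    · have e : u = w' := mat_unique hG (mat_symm t1) t2
      subst e
      exact huv (hg.yR _ hu v hv (R.of_tri t3))
    · have e : u = w' := mat_unique hG (mat_symm t1) t2
      subst e
      exact hno _ _ huS hvS t3
  | .cons _ (.cons _ (.cons _ (.cons _ _))), hp =>
    simp only [SimpleGraph.Walk.length_cons] at hp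
    omega

theorem packing_x (hG : CC G) {S X Y : Set V} (hg : Good G S X Y) : IsPacking G 2 X := by
  intro u hu v hv huv
  by_contra hcon
  obtain ⟨p, hp⟩ := walk_of_le hcon
  -- a `tri` edge followed by a `mat` edge
  have key : ∀ x ∈ X, ∀ y ∈ X, ∀ w, tri G x w → mat G w y → False := by
    intro x hx y hy w h1 h2
    obtain ⟨k1, k2⟩ := hg.xmat y hy w (mat_symm h2)
    have hxS : x ∈ S := hg.closed _ _ (tri_symm h1) k1
    exact hg.xopen x hx hxS w y (R.of_tri h1) h2 k2 hy
  match p, hp with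
  | .nil, _ => exact huv rfl
  | .cons h1 .nil, _ =>
    rcases tri_or_mat h1 with t1 | t1
    · exact huv (hg.xR u hu v hv (R.of_tri t1))
    · exact (hg.xmat v hv u (mat_symm t1)).2 (hg.xmat u hu v t1).1
  | .cons (v := w) h1 (.cons h2 .nil), _ =>
    rcases tri_or_mat h1 with t1 | t1 <;> rcases tri_or_mat h2 with t2 | t2
    · exact huv (hg.xR u hu v hv ((R.of_tri t1).trans (R.of_tri t2)))
    · exact key u hu v hv w t1 t2
    · exact key v hv u hu w (tri_symm t2) (mat_symm t1)
    · exact huv (mat_unique hG (mat_symm t1) t2)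
  | .cons _ (.cons _ (.cons _ _)), hp =>
    simp only [SimpleGraph.Walk.length_cons] at hp
    omega

theorem packing_one {X : Set V} (h : ∀ u ∈ X, ∀ v ∈ X, ¬ G.Adj u v) : IsPacking G 1 X := by
  intro u hu v hv huv
  by_contra hcon
  obtain ⟨p, hp⟩ := walk_of_le hcon
  match p, hp with
  | .nil, _ => exact huv rfl
  | .cons h1 .nil, _ => exact h u hu v hv h1
  | .cons _ (.cons _ _), hp =>
    simp only [SimpleGraph.Walk.length_cons] at hp
    omega

theorem colourable_of_cc [Finite V] (hG : CC G) : PackingColourable G ![1, 1, 2, 3] := by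
  classical
  obtain ⟨S, X, Y, hg⟩ := exists_sets hG
  obtain ⟨c, hc⟩ := bip_left hG hg
  let f : V → Fin 4 := fun v => if v ∈ X then 2 else if v ∈ Y then 3 else if c v then 1 else 0
  have f0 : ∀ v, f v = 0 → v ∉ X ∪ Y ∧ c v = false := by
    intro v hv
    by_cases h1 : v ∈ X
    · simp [f, h1] at hv
    by_cases h2 : v ∈ Y
    · simp [f, h1, h2] at hv
    by_cases h3 : c v
    · simp [f, h1, h2, h3] at hv
    · exact ⟨fun h => h.elim h1 h2, by simpa using h3⟩
  have f1 : ∀ v, f v = 1 → v ∉ X ∪ Y ∧ c v = true := by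
    intro v hv
    by_cases h1 : v ∈ X
    · simp [f, h1] at hv
    by_cases h2 : v ∈ Y
    · simp [f, h1, h2] at hv
    by_cases h3 : c v
    · exact ⟨fun h => h.elim h1 h2, h3⟩
    · simp [f, h1, h2, h3] at hv
  have f2 : ∀ v, f v = 2 → v ∈ X := by
    intro v hv
    by_contra h1
    by_cases h2 : v ∈ Y
    · simp [f, h1, h2] at hv
    by_cases h3 : c v
    · simp [f, h1, h2, h3] at hv
    · simp [f, h1, h2, h3] at hv
  have f3 : ∀ v, f v = 3 → v ∈ Y := by
    intro v hv
    by_contra h2
    by_cases h1 : v ∈ X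
    · simp [f, h1] at hv
    by_cases h3 : c v
    · simp [f, h1, h2, h3] at hv
    · simp [f, h1, h2, h3] at hv
  refine ⟨f, ?_⟩
  intro i
  fin_cases i
  · show IsPacking G 1 {v | f v = 0}
    refine packing_one fun u hu v hv huv => ?_
    obtain ⟨h1, h2⟩ := f0 u hu
    obtain ⟨h3, h4⟩ := f0 v hv
    exact hc u h1 v h3 huv (h2.trans h4.symm)
  · show IsPacking G 1 {v | f v = 1}
    refine packing_one fun u hu v hv huv => ?_
    obtain ⟨h1, h2⟩ := f1 u hu
    obtain ⟨h3, h4⟩ := f1 v hv
    exact hc u h1 v h3 huv (h2.trans h4.symm)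
  · show IsPacking G 2 {v | f v = 2}
    exact packing_mono (packing_x hG hg) f2
  · show IsPacking G 3 {v | f v = 3}
    exact packing_mono (packing_y hG hg) f3

/-- a cubic claw-free graph has the property `CC`. -/
theorem cc_of [Fintype V] [DecidableRel G.Adj] (hreg : G.IsRegularOfDegree 3)
    (hclaw : ClawFree G) : CC G := by
  classical
  intro v
  have h3 : (G.neighborFinset v).card = 3 := by
    rw [SimpleGraph.card_neighborFinset_eq_degree]
    exact hreg v
  obtain ⟨x, y, z, hxy, hxz, hyz, hN⟩ := Finset.card_eq_three.1 h3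
  have hN' : ∀ w, G.Adj v w ↔ w = x ∨ w = y ∨ w = z := by
    intro w
    rw [← SimpleGraph.mem_neighborFinset, hN]
    simp
  have ax : G.Adj v x := (hN' x).2 (Or.inl rfl)
  have ay : G.Adj v y := (hN' y).2 (Or.inr (Or.inl rfl))
  have az : G.Adj v z := (hN' z).2 (Or.inr (Or.inr rfl))
  by_cases h1 : G.Adj x y
  · exact ⟨x, y, z, hxy, hxz, hyz, h1, ax, ay, az, fun w hw => (hN' w).1 hw⟩
  by_cases h2 : G.Adj x z
  · exact ⟨x, z, y, hxz, hxy, hyz.symm, h2, ax, az, ay, fun w hw => by
      rcases (hN' w).1 hw with h | h | h <;> simp [h]⟩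
  by_cases h4 : G.Adj y z
  · exact ⟨y, z, x, hyz, hxy.symm, hxz.symm, h4, ay, az, ax, fun w hw => by
      rcases (hN' w).1 hw with h | h | h <;> simp [h]⟩
  exfalso
  apply hclaw
  let g : Fin 1 ⊕ Fin 3 → V := Sum.elim (fun _ => v) ![x, y, z]
  have hgi : Function.Injective g := by
    have e1 := ax.ne
    have e2 := ay.ne
    have e3 := az.ne
    rintro (a | a) (b | b) hab
    · rw [Subsingleton.elim a b]
    · exfalso
      fin_cases b <;> simp [g] at hab <;> contradiction
    · exfalso
      fin_cases a <;> simp [g] at hab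
      · exact e1 hab.symm
      · exact e2 hab.symm
      · exact e3 hab.symm
    · congr 1
      fin_cases a <;> fin_cases b <;> simp [g] at hab ⊢ <;> first
        | exact hxy hab | exact hxz hab | exact hyz hab
        | exact hxy hab.symm | exact hxz hab.symm | exact hyz hab.symm
  refine ⟨⟨⟨g, hgi⟩, ?_⟩⟩
  rintro (a | a) (b | b)
  · simp [g, completeBipartiteGraph]
  · fin_cases b <;> simp [g, completeBipartiteGraph, ax, ay, az]
  · fin_cases a <;> simp [g, completeBipartiteGraph, ax.symm, ay.symm, az.symm]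
  · have h1' : ¬ G.Adj y x := fun h => h1 h.symm
    have h2' : ¬ G.Adj z x := fun h => h2 h.symm
    have h4' : ¬ G.Adj z y := fun h => h4 h.symm
    fin_cases a <;> fin_cases b <;> simp [g, completeBipartiteGraph, h1, h2, h4, h1', h2', h4']

end Pool.Agent.N370.CF
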