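import Pool.Agent.N370.CF.Thin

/-!
# Choice of the vertices of the 3-packing in the thin units
-/

set_option autoImplicit false

namespace Pool.Agent.N370.CF

variable {V : Type*} {G : SimpleGraph V}

variable (G) in
/-- the unit of a vertex -/
def un (v : V) : Set V := {w | R G v w}

theorem un_eq {u v : V} : un G u = un G v ↔ R G u v := by
  constructor
  · intro h
    have : v ∈ un G v := R.refl v
    rw [← h] at this
    exact this
  · intro h
    ext w
    exact ⟨fun hw => h.symm.trans hw, fun hw => h.trans hw⟩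

theorem mem_un {u v : V} : v ∈ un G u ↔ R G u v := Iff.rfl

/-- choose one vertex in each unit -/
theorem choose_units (P Q : V → Prop) (h : ∀ v, Q v → ∃ x, R G v x ∧ P x) :
    ∃ X : Set V, (∀ x ∈ X, P x) ∧ (∀ v, Q v → ∃ x ∈ X, R G v x) ∧
      (∀ x ∈ X, ∀ y ∈ X, R G x y → x = y) ∧ (∀ x ∈ X, ∃ v, Q v ∧ R G v x) := by
  classical
  let U := {A : Set V // ∃ v, Q v ∧ un G v = A}
  have h1 : ∀ A : U, ∃ x, x ∈ A.1 ∧ P x := by
    rintro ⟨A, v, hv, rfl⟩
    obtain ⟨x, hx, hp⟩ := h v hv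
    exact ⟨x, hx, hp⟩
  choose g hg hgP using h1
  have hgU : ∀ A : U, un G (g A) = A.1 := by
    rintro ⟨A, v, hv, rfl⟩
    have := hg ⟨un G v, v, hv, rfl⟩
    exact un_eq.2 (R.symm this)
  refine ⟨Set.range g, ?_, ?_, ?_, ?_⟩
  · rintro _ ⟨A, rfl⟩; exact hgP A
  · intro v hv
    exact ⟨g ⟨un G v, v, hv, rfl⟩, ⟨_, rfl⟩, hg ⟨un G v, v, hv, rfl⟩⟩
  · rintro _ ⟨A, rfl⟩ _ ⟨B, rfl⟩ hR
    have : A = B := Subtype.ext (by rw [← hgU A, ← hgU B]; exact un_eq.2 hR)
    rw [this]
  · rintro _ ⟨⟨A, v, hv, rfl⟩, rfl⟩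
    exact ⟨v, hv, hg ⟨un G v, v, hv, rfl⟩⟩

theorem exists_ports [Finite V] (hG : CC G) (S : Set V)
    (hSc : ∀ u v, tri G u v → u ∈ S → v ∈ S) :
    ∃ Y : Set V, (∀ y ∈ Y, y ∈ S ∧ ¬ fat G y) ∧ (∀ v ∈ S, ¬ fat G v → ∃ y ∈ Y, R G v y) ∧
      (∀ y ∈ Y, ∀ y' ∈ Y, R G y y' → y = y') ∧
      (∀ y ∈ Y, ∀ y' ∈ Y, ∀ w w', mat G y w → mat G y' w' → R G w w' → ¬ fat G w → y = y') := by
  classical
  cases nonempty_fintype V
  -- partner
  have hpm : ∀ v, ∃ z, ¬ fat G v → mat G v z := by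
    intro v
    by_cases hv : fat G v
    · exact ⟨v, fun h => absurd hv h⟩
    · obtain ⟨x, y, z, -, -, -, -, -, -, hz, -⟩ := thin_struct hG hv
      exact ⟨z, fun _ => hz⟩
  choose pm hpm using hpm
  let tgt : V → Set V := fun v => if fat G (pm v) then {pm v} else un G (pm v)
  have htgt1 : ∀ v, pm v ∈ tgt v := by
    intro v
    by_cases h : fat G (pm v)
    · simp [tgt, h]
    · simp only [tgt, h, if_false]
      exact R.refl _
  have hthin : ∀ v, ¬ fat G v → ∃ x y, x ≠ y ∧ v ≠ x ∧ v ≠ y ∧ un G v = {v, x, y} := by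
    intro v hv
    obtain ⟨x, y, z, h1, h2, h3, -, -, -, hz, -, h4⟩ := thin_struct hG hv
    refine ⟨x, y, h1, h2, h3, ?_⟩
    ext w
    rw [mem_un, h4]
    simp
  have htgt2 : ∀ v, (tgt v).ncard ≤ 3 := by
    intro v
    by_cases h : fat G (pm v)
    · simp [tgt, h]
    · obtain ⟨x, y, -, -, -, h5⟩ := hthin _ h
      simp only [tgt, h, if_false, h5]
      exact (Set.ncard_insert_le _ _).trans (by
        have := Set.ncard_insert_le x {y}
        rw [Set.ncard_singleton] at this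
        omega)
  let U := {A : Set V // ∃ v ∈ S, ¬ fat G v ∧ un G v = A}
  let t : U → Finset (Set V) := fun A => (Finset.univ.filter (fun v => v ∈ A.1)).image tgt
  -- members of units
  have hmem : ∀ (A : U) (v : V), v ∈ A.1 → v ∈ S ∧ ¬ fat G v ∧ un G v = A.1 := by
    rintro ⟨A, u, hu, hf, rfl⟩ v hv
    refine ⟨R.closed (S := fun v => v ∈ S) hSc hv hu, fun h => hf (fat.congr (R.symm hv) h), ?_⟩
    exact un_eq.2 (R.symm hv)
  have hall : ∀ s : Finset U, s.card ≤ (s.biUnion t).card := by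
    intro s
    let P : Finset V := Finset.univ.filter (fun v => ∃ A ∈ s, v ∈ A.1)
    have hP1 : 3 * (s.image Subtype.val).card ≤ P.card := by
      refine Finset.mul_card_image_le_card_of_maps_to (f := un G) ?_ 3 ?_
      · intro v hv
        obtain ⟨A, hA, hvA⟩ := (Finset.mem_filter.1 hv).2
        rw [Finset.mem_image]
        exact ⟨A, hA, (hmem A v hvA).2.2.symm⟩
      · intro B hB
        obtain ⟨A, hA, rfl⟩ := Finset.mem_image.1 hB
        obtain ⟨u, hu, hf, hAu⟩ := A.2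
        obtain ⟨x, y, h1, h2, h3, h4⟩ := hthin u hf
        have hsub : ({u, x, y} : Finset V) ⊆ P.filter (fun a => un G a = A.1) := by
          intro w hw
          have hwA : w ∈ A.1 := by
            rw [← hAu, h4]
            simpa using hw
          rw [Finset.mem_filter]
          refine ⟨Finset.mem_filter.2 ⟨Finset.mem_univ _, A, hA, hwA⟩, (hmem A w hwA).2.2⟩
        refine le_trans ?_ (Finset.card_le_card hsub)
        rw [Finset.card_eq_three.2 ⟨u, x, y, h2, h3, h1, rfl⟩]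
    have hP2 : P.card ≤ 3 * (s.biUnion t).card := by
      refine Finset.card_le_mul_card_image_of_maps_to (f := tgt) ?_ 3 ?_
      · intro v hv
        obtain ⟨A, hA, hvA⟩ := (Finset.mem_filter.1 hv).2
        rw [Finset.mem_biUnion]
        refine ⟨A, hA, Finset.mem_image.2 ⟨v, Finset.mem_filter.2 ⟨Finset.mem_univ _, hvA⟩, rfl⟩⟩
      · intro B hB
        obtain ⟨A, hA, hB⟩ := Finset.mem_biUnion.1 hB
        obtain ⟨v, hv, rfl⟩ := Finset.mem_image.1 hB
        have hcard := htgt2 v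
        rw [Set.ncard_eq_toFinset_card'] at hcard
        refine le_trans (Finset.card_le_card_of_injOn pm ?_ ?_) hcard
        · intro a ha
          have ha := Finset.mem_coe.1 ha
          have ha2 := (Finset.mem_filter.1 ha).2
          rw [Finset.mem_coe, Set.mem_toFinset, ← ha2]
          exact htgt1 a
        · intro a ha b hb hab
          have ha := (Finset.mem_filter.1 (Finset.mem_coe.1 ha)).1
          have hb := (Finset.mem_filter.1 (Finset.mem_coe.1 hb)).1
          obtain ⟨A1, -, hA1⟩ := (Finset.mem_filter.1 ha).2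
          obtain ⟨A2, -, hA2⟩ := (Finset.mem_filter.1 hb).2
          have m1 := hpm a (hmem A1 a hA1).2.1
          have m2 := hpm b (hmem A2 b hA2).2.1
          rw [← hab] at m2
          exact mat_unique hG (mat_symm m1) (mat_symm m2)
    rw [Finset.card_image_of_injective _ Subtype.val_injective] at hP1
    omega
  obtain ⟨f, hfi, hft⟩ := (Finset.all_card_le_biUnion_card_iff_exists_injective t).1 hall
  have h1 : ∀ A : U, ∃ v, v ∈ A.1 ∧ tgt v = f A := by
    intro A
    obtain ⟨v, hv, hv2⟩ := Finset.mem_image.1 (hft A)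
    exact ⟨v, (Finset.mem_filter.1 hv).2, hv2⟩
  choose g hg hgt using h1
  refine ⟨Set.range g, ?_, ?_, ?_, ?_⟩
  · rintro _ ⟨A, rfl⟩
    have := hmem A _ (hg A)
    exact ⟨this.1, this.2.1⟩
  · intro v hv hf
    exact ⟨g ⟨un G v, v, hv, hf, rfl⟩, ⟨_, rfl⟩, hg ⟨un G v, v, hv, hf, rfl⟩⟩
  · rintro _ ⟨A, rfl⟩ _ ⟨B, rfl⟩ hR
    have : A = B := Subtype.ext (by
      rw [← (hmem A _ (hg A)).2.2, ← (hmem B _ (hg B)).2.2]; exact un_eq.2 hR)
    rw [this]
  · rintro _ ⟨A, rfl⟩ _ ⟨B, rfl⟩ w w' hw hw' hR hf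
    have e1 : pm (g A) = w := mat_unique hG (hpm _ (hmem A _ (hg A)).2.1) hw
    have e2 : pm (g B) = w' := mat_unique hG (hpm _ (hmem B _ (hg B)).2.1) hw'
    have hf' : ¬ fat G w' := fun h => hf (fat.congr (R.symm hR) h)
    have : f A = f B := by
      rw [← hgt A, ← hgt B]
      simp only [tgt, e1, e2, hf, hf', if_false]
      exact un_eq.2 hR
    rw [hfi this]

end Pool.Agent.N370.CF
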