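import Pool.Agent.N370.CF.Ports

/-!
# The two packings of large distance
-/

set_option autoImplicit false

namespace Pool.Agent.N370.CF

variable {V : Type*} {G : SimpleGraph V}

variable (G) in
/-- The list of properties of the two sets, `S` being the set of vertices of the `Y`-units. -/
structure Good (S X Y : Set V) : Prop where
  closed : ∀ u v, tri G u v → u ∈ S → v ∈ S
  indep : ∀ u v, mat G u v → u ∈ S → v ∉ S
  yS : ∀ y ∈ Y, y ∈ S
  yR : ∀ y ∈ Y, ∀ y' ∈ Y, R G y y' → y = y'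
  y3 : ∀ y ∈ Y, ∀ y' ∈ Y, ∀ w w', mat G y w → mat G y' w' → tri G w w' → y = y'
  xR : ∀ x ∈ X, ∀ x' ∈ X, R G x x' → x = x'
  xmat : ∀ x ∈ X, ∀ w, mat G x w → w ∈ S ∧ x ∉ S
  xopen : ∀ x ∈ X, x ∈ S → ∀ a a', R G x a → mat G a a' → a' ∉ S → a' ∉ X
  thin : ∀ v, ¬ fat G v → ∃ z ∈ X ∪ Y, R G v z
  fatb : ∀ v, fat G v → ∃ b, mid G b ∧ R G v b ∧ b ∈ X ∪ Y
  fatc : ∀ v ∈ S, fat G v → (∀ a a', R G v a → mat G a a' → a' ∉ X) →
    ∃ b c, b ≠ c ∧ R G v b ∧ R G v c ∧ b ∈ X ∪ Y ∧ c ∈ X ∪ Y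
  fatl : ∀ v, fat G v → v ∉ S → ∃ u w, R G v u ∧ mat G u w ∧ w ∈ S ∧ fat G w

theorem exists_sets [Finite V] (hG : CC G) : ∃ S X Y : Set V, Good G S X Y := by
  classical
  obtain ⟨S, s1, s2, s3, s4⟩ := exists_labels hG
  obtain ⟨Y1, y1, y2, y3, y4⟩ := exists_ports hG S s1
  have hS : ∀ u v, R G u v → u ∈ S → v ∈ S := fun u v h hu =>
    R.closed (S := fun v => v ∈ S) s1 h hu
  have hF : ∀ u v, R G u v → fat G u → fat G v := fun u v h hu => fat.congr h hu
  obtain ⟨X1, a1, a2, a3, a4⟩ := choose_units (G := G) (fun x => ∃ w, mat G x w ∧ w ∈ S)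
    (fun v => v ∉ S ∧ ¬ fat G v) (fun v hv => by
      obtain ⟨u, w, h1, h2, h3⟩ := s3 v hv.1
      exact ⟨u, h1, w, h2, h3⟩)
  obtain ⟨B, b1, b2, b3, b4⟩ := choose_units (G := G) (mid G) (fat G)
    (fun v hv => by
      obtain ⟨m, hm, hr⟩ := hv
      exact ⟨m, hr.symm, hm⟩)
  obtain ⟨C, c1, c2, c3, c4⟩ := choose_units (G := G) (fun x => mid G x ∧ x ∉ B) (fat G)
    (fun v hv => by
      obtain ⟨b, hb, hvb⟩ := b2 v hv
      obtain ⟨c, a, d, hbc, -, -, -, -, -, abc, aba, abd, aca, acd, -, -, hR, hmc⟩ :=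
        fat_struct hG (b1 b hb)
      have hRc : R G b c := R.of_tri ⟨abc, a, aba, aca⟩
      exact ⟨c, hvb.trans hRc, hmc, fun hc => hbc (b3 b hb c hc hRc)⟩)
  have X1S : ∀ x ∈ X1, x ∉ S := by
    intro x hx hxS
    obtain ⟨v, hv, hr⟩ := a4 x hx
    exact hv.1 (hS _ _ hr.symm hxS)
  have X1F : ∀ x ∈ X1, ¬ fat G x := by
    intro x hx hxS
    obtain ⟨v, hv, hr⟩ := a4 x hx
    exact hv.2 (hF _ _ hr.symm hxS)
  have BF : ∀ x ∈ B, fat G x := fun x hx => (b1 x hx).fat
  have CF : ∀ x ∈ C, fat G x := fun x hx => (c1 x hx).1.fat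
  let X0 : Set V := X1 ∪ (B \ S)
  let C' : Set V := {c | c ∈ C ∧ c ∈ S ∧ ∀ a a', R G c a → mat G a a' → a' ∉ X0}
  let X : Set V := X0 ∪ C'
  let Y : Set V := Y1 ∪ (B ∩ S)
  have X0S : ∀ x ∈ X0, x ∉ S := by
    rintro x (hx | hx)
    · exact X1S x hx
    · exact hx.2
  refine ⟨S, X, Y, ⟨s1, s2, ?_, ?_, ?_, ?_, ?_, ?_, ?_, ?_, ?_, s4⟩⟩
  · rintro y (hy | hy)
    · exact (y1 y hy).1
    · exact hy.2
  · rintro y (hy | hy) y' (hy' | hy') h
    · exact y3 y hy y' hy' h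
    · exact absurd (hF _ _ h.symm (BF y' hy'.1)) (y1 y hy).2
    · exact absurd (hF _ _ h (BF y hy.1)) (y1 y' hy').2
    · exact b3 y hy.1 y' hy'.1 h
  · rintro y (hy | hy) y' (hy' | hy') w w' hw hw' h
    · by_cases hf : fat G w
      · exfalso
        obtain ⟨m, hm, hr⟩ := hf
        obtain ⟨c, a, d, hbc, hba, hbd, hca, hcd, had, abc, aba, abd, aca, acd, hNb, hNc, hR,
          hmc⟩ := fat_struct hG hm
        have e1 := hR w hr
        have e2 := hR w' (hr.trans (R.of_tri h))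
        -- `w` and `w'` are not middle vertices
        have n1 : w ≠ m := fun e => hm y (e ▸ mat_symm hw)
        have n2 : w ≠ c := fun e => hmc y (e ▸ mat_symm hw)
        have n3 : w' ≠ m := fun e => hm y' (e ▸ mat_symm hw')
        have n4 : w' ≠ c := fun e => hmc y' (e ▸ mat_symm hw')
        have hww : w ≠ w' := tri_ne h
        -- neighbours of `w`
        have hmw : G.Adj w m := by
          rcases e1 with rfl | rfl | rfl | rfl
          · exact absurd rfl n1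
          · exact absurd rfl n2
          · exact aba.symm
          · exact abd.symm
        have hcw : G.Adj w c := by
          rcases e1 with rfl | rfl | rfl | rfl
          · exact absurd rfl n1
          · exact absurd rfl n2
          · exact aca.symm
          · exact acd.symm
        obtain ⟨p, q, r, h1, h2, h3, h4, h5, h6, h7, h8⟩ := hG w
        have k1 := h8 m hmw
        have k2 := h8 c hcw
        have k3 := h8 w' h.1
        have k4 := h8 y (mat_symm hw).1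
        have l1 : y ≠ m := by
          rintro rfl
          exact hm _ hw
        have l2 : y ≠ c := by
          rintro rfl
          exact hmc _ hw
        have l3 : y ≠ w' := by
          rintro rfl
          exact not_mat_of_tri h (mat_symm hw)
        rcases k1 with rfl | rfl | rfl <;> rcases k2 with rfl | rfl | rfl <;>
          rcases k3 with rfl | rfl | rfl <;> rcases k4 with rfl | rfl | rfl <;> first
            | exact absurd rfl hbc | exact absurd rfl l1 | exact absurd rfl l2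
            | exact absurd rfl l3 | exact absurd rfl n3 | exact absurd rfl n4
      · exact y4 y hy y' hy' w w' hw hw' (R.of_tri h) hf
    · exact absurd hw' (b1 y' hy'.1 w')
    · exact absurd hw (b1 y hy.1 w)
    · exact absurd hw (b1 y hy.1 w)
  · rintro x ((hx | hx) | hx) x' ((hx' | hx') | hx') h
    · exact a3 x hx x' hx' h
    · exact absurd (hF _ _ h.symm (BF x' hx'.1)) (X1F x hx)
    · exact absurd (hF _ _ h.symm (CF x' hx'.1)) (X1F x hx)
    · exact absurd (hF _ _ h (BF x hx.1)) (X1F x' hx')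
    · exact b3 x hx.1 x' hx'.1 h
    · exact absurd (hS _ _ h.symm hx'.2.1) hx.2
    · exact absurd (hF _ _ h (CF x hx.1)) (X1F x' hx')
    · exact absurd (hS _ _ h hx.2.1) hx'.2
    · exact c3 x hx.1 x' hx'.1 h
  · rintro x ((hx | hx) | hx) w hw
    · obtain ⟨w', h1, h2⟩ := a1 x hx
      rw [mat_unique hG hw h1]
      exact ⟨h2, X1S x hx⟩
    · exact absurd hw (b1 x hx.1 w)
    · exact absurd hw ((c1 x hx.1).1 w)
  · rintro x (hx | hx) hxS a a' hr hm ha'S ha'
    · exact X0S x hx hxS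
    · rcases ha' with ha' | ha'
      · exact hx.2.2 a a' hr hm ha'
      · exact ha'S ha'.2.1
  · intro v hv
    by_cases hvS : v ∈ S
    · obtain ⟨y, hy, hr⟩ := y2 v hvS hv
      exact ⟨y, Or.inr (Or.inl hy), hr⟩
    · obtain ⟨x, hx, hr⟩ := a2 v ⟨hvS, hv⟩
      exact ⟨x, Or.inl (Or.inl (Or.inl hx)), hr⟩
  · intro v hv
    obtain ⟨b, hb, hr⟩ := b2 v hv
    refine ⟨b, b1 b hb, hr, ?_⟩
    by_cases hbS : b ∈ S
    · exact Or.inr (Or.inr ⟨hb, hbS⟩)
    · exact Or.inl (Or.inl (Or.inr ⟨hb, hbS⟩))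
  · intro v hvS hv hopen
    obtain ⟨b, hb, hr⟩ := b2 v hv
    obtain ⟨c, hc, hr'⟩ := c2 v hv
    have hbS : b ∈ S := hS _ _ hr hvS
    have hcS : c ∈ S := hS _ _ hr' hvS
    refine ⟨b, c, ?_, hr, hr', Or.inr (Or.inr ⟨hb, hbS⟩), Or.inl (Or.inr ⟨hc, hcS, ?_⟩)⟩
    · rintro rfl
      exact (c1 b hc).2 hb
    · intro a a' ha hm ha'
      exact hopen a a' (hr'.trans ha) hm (Or.inl ha')

end Pool.Agent.N370.CF
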