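import Mathlib

/-!
# Claw-free cubic graphs: triangles and diamonds
-/

set_option autoImplicit false

namespace Pool.Agent.N370.CF

variable {V : Type*} (G : SimpleGraph V)

/-- The neighbours of each vertex are three vertices, two of which are adjacent. -/
def CC : Prop := ∀ v, ∃ x y z, x ≠ y ∧ x ≠ z ∧ y ≠ z ∧ G.Adj x y ∧ G.Adj v x ∧ G.Adj v y ∧
  G.Adj v z ∧ ∀ w, G.Adj v w → w = x ∨ w = y ∨ w = z

/-- The edge `u v` is in a triangle. -/
def tri (u v : V) : Prop := G.Adj u v ∧ ∃ w, G.Adj u w ∧ G.Adj v w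

/-- The edge `u v` is in no triangle. -/
def mat (u v : V) : Prop := G.Adj u v ∧ ¬ ∃ w, G.Adj u w ∧ G.Adj v w

variable {G}

theorem tri_symm {u v : V} (h : tri G u v) : tri G v u :=
  ⟨h.1.symm, h.2.elim fun w hw => ⟨w, hw.2, hw.1⟩⟩

theorem mat_symm {u v : V} (h : mat G u v) : mat G v u :=
  ⟨h.1.symm, fun ⟨w, hw⟩ => h.2 ⟨w, hw.2, hw.1⟩⟩

theorem tri_ne {u v : V} (h : tri G u v) : u ≠ v := h.1.ne

theorem mat_ne {u v : V} (h : mat G u v) : u ≠ v := h.1.ne

theorem tri_or_mat {u v : V} (h : G.Adj u v) : tri G u v ∨ mat G u v := by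
  by_cases hw : ∃ w, G.Adj u w ∧ G.Adj v w
  · exact Or.inl ⟨h, hw⟩
  · exact Or.inr ⟨h, hw⟩

theorem not_mat_of_tri {u v : V} (h : tri G u v) : ¬ mat G u v := fun h' => h'.2 h.2

theorem mat_unique (hG : CC G) {v z z' : V} (h : mat G v z) (h' : mat G v z') : z = z' := by
  obtain ⟨x, y, t, hxy, hxt, hyt, axy, avx, avy, avt, hN⟩ := hG v
  have hx : tri G v x := ⟨avx, y, avy, axy⟩
  have hy : tri G v y := ⟨avy, x, avx, axy.symm⟩
  rcases hN z h.1 with rfl | rfl | rfl
  · exact absurd h (not_mat_of_tri hx)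
  · exact absurd h (not_mat_of_tri hy)
  · rcases hN z' h'.1 with rfl | rfl | rfl
    · exact absurd h' (not_mat_of_tri hx)
    · exact absurd h' (not_mat_of_tri hy)
    · rfl

variable (G) in
/-- The graph of all edges in triangles. -/
def T : SimpleGraph V where
  Adj := tri G
  symm := ⟨fun _ _ h => tri_symm h⟩
  loopless := ⟨fun _ h => h.1.ne rfl⟩

variable (G) in
/-- the vertices `u` and `v` are in the same unit -/
def R (u v : V) : Prop := (T G).Reachable u v

theorem R.refl (v : V) : R G v v := SimpleGraph.Reachable.refl v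
theorem R.symm {u v : V} (h : R G u v) : R G v u := SimpleGraph.Reachable.symm h
theorem R.trans {u v w : V} (h : R G u v) (h' : R G v w) : R G u w :=
  SimpleGraph.Reachable.trans h h'
theorem R.of_tri {u v : V} (h : tri G u v) : R G u v := SimpleGraph.Adj.reachable h

/-- A set closed under `tri` contains units. -/
theorem R.closed {S : V → Prop} (hS : ∀ u v, tri G u v → S u → S v) {u v : V} (h : R G u v)
    (hu : S u) : S v := by
  obtain ⟨p⟩ := h
  induction p with
  | nil => exact hu
  | cons h p ih => exact ih (hS _ _ h hu)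

variable (G) in
/-- middle vertices: without an edge in no triangle. -/
def mid (v : V) : Prop := ∀ z, ¬ mat G v z

variable (G) in
/-- the unit contains a middle vertex -/
def fat (v : V) : Prop := ∃ m, mid G m ∧ R G m v

/-- Structure of a fat unit with middle vertex `b`. -/
theorem fat_struct (hG : CC G) {b : V} (hb : mid G b) : ∃ c a d, b ≠ c ∧ b ≠ a ∧ b ≠ d ∧ c ≠ a ∧
    c ≠ d ∧ a ≠ d ∧ G.Adj b c ∧ G.Adj b a ∧ G.Adj b d ∧ G.Adj c a ∧ G.Adj c d ∧
    (∀ w, G.Adj b w → w = c ∨ w = a ∨ w = d) ∧ (∀ w, G.Adj c w → w = b ∨ w = a ∨ w = d) ∧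
    (∀ w, R G b w → w = b ∨ w = c ∨ w = a ∨ w = d) ∧ mid G c := by
  obtain ⟨x, y, z, hxy, hxz, hyz, axy, abx, aby, abz, hN⟩ := hG b
  have hz : tri G b z := (tri_or_mat abz).resolve_right (hb z)
  obtain ⟨w, hbw, hzw⟩ := hz.2
  -- it suffices to find the other middle vertex
  have key : ∀ c a d : V, c ≠ a → c ≠ d → a ≠ d → G.Adj b c → G.Adj b a → G.Adj b d → G.Adj c a →
      G.Adj c d → (∀ w, G.Adj b w → w = c ∨ w = a ∨ w = d) → ∃ c a d, b ≠ c ∧ b ≠ a ∧ b ≠ d ∧ c ≠ a ∧
    c ≠ d ∧ a ≠ d ∧ G.Adj b c ∧ G.Adj b a ∧ G.Adj b d ∧ G.Adj c a ∧ G.Adj c d ∧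
    (∀ w, G.Adj b w → w = c ∨ w = a ∨ w = d) ∧ (∀ w, G.Adj c w → w = b ∨ w = a ∨ w = d) ∧
    (∀ w, R G b w → w = b ∨ w = c ∨ w = a ∨ w = d) ∧ mid G c := by
    intro c a d hca hcd had abc aba abd aca acd hNb
    have hNc : ∀ w, G.Adj c w → w = b ∨ w = a ∨ w = d := by
      obtain ⟨x', y', z', h1, h2, h3, h4, h5, h6, h7, h8⟩ := hG c
      have hb' := h8 b abc.symm
      have ha' := h8 a aca
      have hd' := h8 d acd
      have n1 : b ≠ a := aba.ne
      have n2 : b ≠ d := abd.ne
      intro w hw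
      have hw' := h8 w hw
      rcases hb' with rfl | rfl | rfl <;> rcases ha' with rfl | rfl | rfl <;>
        rcases hd' with rfl | rfl | rfl <;> first
          | exact absurd rfl n1 | exact absurd rfl n2 | exact absurd rfl had | tauto
    have hmc : mid G c := by
      intro t ht
      rcases hNc t ht.1 with h | h | h
      · exact ht.2 ⟨a, aca, by rw [h]; exact aba⟩
      · exact ht.2 ⟨b, abc.symm, by rw [h]; exact aba.symm⟩
      · exact ht.2 ⟨b, abc.symm, by rw [h]; exact abd.symm⟩
    -- neighbours of an end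
    have hend : ∀ a, G.Adj b a → G.Adj c a → a ≠ b → a ≠ c → ∀ w, tri G a w → w ≠ b → w ≠ c →
        (w = a ∨ w = d ∨ G.Adj b w) := by
      intro a ha hc _ _ w hw hwb hwc
      obtain ⟨x', y', z', h1, h2, h3, h4, h5, h6, h7, h8⟩ := hG a
      obtain ⟨t, hat, hwt⟩ := hw.2
      have q1 := h8 b ha.symm
      have q2 := h8 c hc.symm
      have q3 := h8 w hw.1
      have q4 := h8 t hat
      have n1 : b ≠ c := abc.ne
      have n2 : w ≠ t := hwt.ne
      -- t is b or c
      have ht : t = b ∨ t = c := by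
        rcases q1 with rfl | rfl | rfl <;> rcases q2 with rfl | rfl | rfl <;>
          rcases q3 with rfl | rfl | rfl <;> rcases q4 with rfl | rfl | rfl <;> first
          | exact absurd rfl n1 | exact absurd rfl n2 | exact absurd rfl hwb
          | exact absurd rfl hwc | exact Or.inl rfl | exact Or.inr rfl
      rcases ht with rfl | rfl
      · exact Or.inr (Or.inr hwt.symm)
      · rcases hNc w hwt.symm with h | h | h
        · exact absurd h hwb
        · subst h
          exact Or.inr (Or.inr (by assumption))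
        · exact Or.inr (Or.inl h)
    refine ⟨c, a, d, abc.ne, aba.ne, abd.ne, hca, hcd, had, abc, aba, abd, aca, acd, hNb, hNc, ?_,
      hmc⟩
    intro w hw
    refine R.closed (S := fun w => w = b ∨ w = c ∨ w = a ∨ w = d) ?_ hw (Or.inl rfl)
    intro u v huv hu
    show v = b ∨ v = c ∨ v = a ∨ v = d
    rcases hu with rfl | rfl | rfl | rfl
    · rcases hNb v huv.1 with h | h | h <;> simp [h]
    · rcases hNc v huv.1 with h | h | h <;> simp [h]
    · by_cases h1 : v = b
      · exact Or.inl h1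
      by_cases h2 : v = c
      · exact Or.inr (Or.inl h2)
      rcases hend _ aba aca aba.ne.symm aca.ne.symm v huv h1 h2 with h | h | h
      · simp [h]
      · simp [h]
      · rcases hNb v h with h | h | h <;> simp [h]
    · by_cases h1 : v = b
      · exact Or.inl h1
      by_cases h2 : v = c
      · exact Or.inr (Or.inl h2)
      rcases hend _ abd acd abd.ne.symm acd.ne.symm v huv h1 h2 with h | h | h
      · simp [h]
      · simp [h]
      · rcases hNb v h with h | h | h <;> simp [h]
  rcases hN w hbw with rfl | rfl | rfl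
  · -- w = x : z adjacent to x
    exact key w y z hxy hxz hyz abx aby abz axy hzw.symm hN
  · exact key w x z hxy.symm hyz hxz aby abx abz axy.symm hzw.symm
      (fun t ht => by rcases hN t ht with h | h | h <;> simp [h])
  · exact absurd rfl hzw.ne

end Pool.Agent.N370.CF
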