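import Pool.Agent.N370.CF.Struct

/-!
# Thin units, labels of units
-/

set_option autoImplicit false

namespace Pool.Agent.N370.CF

variable {V : Type*} {G : SimpleGraph V}

theorem mid.fat {v : V} (h : mid G v) : fat G v := ⟨v, h, R.refl v⟩

theorem fat.congr {u v : V} (h : R G u v) (hu : fat G u) : fat G v := by
  obtain ⟨m, hm, hr⟩ := hu
  exact ⟨m, hm, hr.trans h⟩

theorem thin_struct (hG : CC G) {v : V} (hv : ¬ fat G v) : ∃ x y z, x ≠ y ∧ v ≠ x ∧ v ≠ y ∧
    G.Adj v x ∧ G.Adj v y ∧ G.Adj x y ∧ mat G v z ∧ (∀ w, G.Adj v w → w = x ∨ w = y ∨ w = z) ∧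
    (∀ w, R G v w ↔ (w = v ∨ w = x ∨ w = y)) := by
  have hsimple : ∀ u, R G v u → ∃ z, mat G u z := by
    intro u hu
    by_contra hcon
    push Not at hcon
    exact hv ⟨u, hcon, hu.symm⟩
  obtain ⟨x, y, z, hxy, hxz, hyz, axy, avx, avy, avz, hN⟩ := hG v
  have tx : tri G v x := ⟨avx, y, avy, axy⟩
  have ty : tri G v y := ⟨avy, x, avx, axy.symm⟩
  have txy : tri G x y := ⟨axy, v, avx.symm, avy.symm⟩
  have hz : mat G v z := by
    obtain ⟨z', hz'⟩ := hsimple v (R.refl v)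
    rcases hN z' hz'.1 with rfl | rfl | rfl
    · exact absurd hz' (not_mat_of_tri tx)
    · exact absurd hz' (not_mat_of_tri ty)
    · exact hz'
  -- tri-neighbours of a vertex with two given ones
  have two : ∀ p q r : V, R G v p → q ≠ r → tri G p q → tri G p r → ∀ w, tri G p w →
      w = q ∨ w = r := by
    intro p q r hp hqr hq hr w hw
    obtain ⟨t, ht⟩ := hsimple p hp
    obtain ⟨x', y', z', h1, h2, h3, h4, h5, h6, h7, h8⟩ := hG p
    have a1 := h8 q hq.1
    have a2 := h8 r hr.1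
    have a3 := h8 w hw.1
    have a4 := h8 t ht.1
    have n1 : t ≠ q := fun h => not_mat_of_tri hq (h ▸ ht)
    have n2 : t ≠ r := fun h => not_mat_of_tri hr (h ▸ ht)
    have n3 : t ≠ w := fun h => not_mat_of_tri hw (h ▸ ht)
    rcases a1 with rfl | rfl | rfl <;> rcases a2 with rfl | rfl | rfl <;>
      rcases a4 with rfl | rfl | rfl <;> rcases a3 with rfl | rfl | rfl <;> first
        | exact absurd rfl n1 | exact absurd rfl n2 | exact absurd rfl n3
        | exact absurd rfl hqr | exact Or.inl rfl | exact Or.inr rfl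
  refine ⟨x, y, z, hxy, avx.ne, avy.ne, avx, avy, axy, hz, hN, fun w => ⟨fun hw => ?_, ?_⟩⟩
  · refine R.closed (S := fun w => w = v ∨ w = x ∨ w = y) ?_ hw (Or.inl rfl)
    intro p q hpq hp
    show q = v ∨ q = x ∨ q = y
    rcases hp with rfl | rfl | rfl
    · rcases two _ x y (R.refl _) hxy tx ty q hpq with h | h <;> simp [h]
    · rcases two _ v y (R.of_tri tx) avy.ne (tri_symm tx) txy q hpq with h | h <;> simp [h]
    · rcases two _ v x (R.of_tri ty) avx.ne (tri_symm ty) (tri_symm txy) q hpq with h | h <;>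
        simp [h]
  · rintro (rfl | rfl | rfl)
    · exact R.refl _
    · exact R.of_tri tx
    · exact R.of_tri ty

/-- There is no edge of the matching in a unit. -/
theorem no_mat_inside (hG : CC G) {u w : V} (h : R G u w) : ¬ mat G u w := by
  intro hm
  by_cases hf : fat G u
  · obtain ⟨b, hb, hbu⟩ := hf
    obtain ⟨c, a, d, -, -, -, -, -, -, abc, aba, abd, aca, acd, -, -, hR, hmc⟩ := fat_struct hG hb
    have hu := hR u hbu
    have hw := hR w (hbu.trans h)
    have hmw := mat_symm hm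
    rcases hu with rfl | rfl | rfl | rfl
    · exact hb _ hm
    · exact hmc _ hm
    · rcases hw with rfl | rfl | rfl | rfl
      · exact hb _ hmw
      · exact hmc _ hmw
      · exact hm.1.ne rfl
      · exact hm.2 ⟨b, aba.symm, abd.symm⟩
    · rcases hw with rfl | rfl | rfl | rfl
      · exact hb _ hmw
      · exact hmc _ hmw
      · exact hm.2 ⟨b, abd.symm, aba.symm⟩
      · exact hm.1.ne rfl
  · obtain ⟨x, y, z, hxy, h1, h2, h3, h4, h5, h6, h7, h8⟩ := thin_struct hG hf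
    rcases (h8 w).1 h with rfl | rfl | rfl
    · exact hm.1.ne rfl
    · exact hm.2 ⟨y, h4, h5⟩
    · exact hm.2 ⟨x, h3, h5.symm⟩

theorem exists_max [Finite V] (hG : CC G) (F : Set V) (hF : ∀ u v, tri G u v → u ∈ F → v ∈ F)
    (S₀ : Set V) (h0F : S₀ ⊆ F) (h0c : ∀ u v, tri G u v → u ∈ S₀ → v ∈ S₀)
    (h0i : ∀ u v, mat G u v → u ∈ S₀ → v ∉ S₀) :
    ∃ S : Set V, S₀ ⊆ S ∧ S ⊆ F ∧ (∀ u v, tri G u v → u ∈ S → v ∈ S) ∧
      (∀ u v, mat G u v → u ∈ S → v ∉ S) ∧
      ∀ v ∈ F, v ∉ S → ∃ u w, R G v u ∧ mat G u w ∧ w ∈ S := by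
  classical
  let P : Set (Set V) := {S | S₀ ⊆ S ∧ S ⊆ F ∧ (∀ u v, tri G u v → u ∈ S → v ∈ S) ∧
      (∀ u v, mat G u v → u ∈ S → v ∉ S)}
  have hne : P.Nonempty := ⟨S₀, subset_rfl, h0F, h0c, h0i⟩
  obtain ⟨S, hS⟩ := (Set.toFinite P).exists_maximal hne
  obtain ⟨⟨hS0, hSF, hSc, hSi⟩, hmax⟩ := hS
  refine ⟨S, hS0, hSF, hSc, hSi, fun v hvF hvS => ?_⟩
  by_contra hcon
  push Not at hcon
  have hin : (S ∪ {u | R G v u}) ∈ P := by
    refine ⟨hS0.trans Set.subset_union_left, ?_, ?_, ?_⟩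
    · rintro u (hu | hu)
      · exact hSF hu
      · exact R.closed (S := fun u => u ∈ F) hF hu hvF
    · rintro p q hpq (hp | hp)
      · exact Or.inl (hSc p q hpq hp)
      · exact Or.inr (R.trans hp (R.of_tri hpq))
    · rintro p q hpq hp hq
      rcases hp with hp | hp <;> rcases hq with hq | hq
      · exact hSi p q hpq hp hq
      · exact hcon q p hq (mat_symm hpq) hp
      · exact hcon p q hp hpq hq
      · exact no_mat_inside hG (R.trans (R.symm hp) hq) hpq
  have := hmax hin Set.subset_union_left (Or.inr (R.refl v))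
  exact hvS this

/-- The labels of the units: the set `S` of all vertices of the units with label `Y`. -/
theorem exists_labels [Finite V] (hG : CC G) : ∃ S : Set V, (∀ u v, tri G u v → u ∈ S → v ∈ S) ∧
      (∀ u v, mat G u v → u ∈ S → v ∉ S) ∧
      (∀ v, v ∉ S → ∃ u w, R G v u ∧ mat G u w ∧ w ∈ S) ∧
      (∀ v, fat G v → v ∉ S → ∃ u w, R G v u ∧ mat G u w ∧ w ∈ S ∧ fat G w) := by
  obtain ⟨S₁, -, h2, h3, h4, h5⟩ := exists_max hG {v | fat G v}
    (fun u v h hu => fat.congr (R.of_tri h) hu) ∅ (Set.empty_subset _)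
    (fun _ _ _ h => h.elim) (fun _ _ _ h => h.elim)
  obtain ⟨S, k1, -, k3, k4, k5⟩ := exists_max hG Set.univ (fun _ _ _ _ => Set.mem_univ _) S₁
    (Set.subset_univ _) h3 h4
  refine ⟨S, k3, k4, fun v hv => k5 v (Set.mem_univ _) hv, fun v hf hv => ?_⟩
  obtain ⟨u, w, a1, a2, a3⟩ := h5 v hf (fun h => hv (k1 h))
  exact ⟨u, w, a1, a2, k1 a3, h2 a3⟩

end Pool.Agent.N370.CF
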